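import Mathlib

set_option autoImplicit false

/-!
A random relabeling of the cube can destroy the earth mover's distance to a property closed under
mapping.
-/

namespace Pool.Agent.Results.MP_3e89d2_lc.RandomRelabeling

open Finset Filter Topology

/-- The cube `{0,1}^n`. -/
abbrev Cube (n : ℕ) : Type := Fin n → Bool

variable {n : ℕ}

/-- The relative Hamming distance. -/
noncomputable def hdist (x y : Cube n) : ℝ := ((univ.filter fun i => x i ≠ y i).card : ℝ) / n

/-- `P` is a distribution on the cube. -/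
def IsDistr (P : Cube n → ℝ) : Prop := (∀ x, 0 ≤ P x) ∧ ∑ x, P x = 1

/-- `w` is a coupling of `P` and `Q`. -/
def IsCoupling (w : Cube n → Cube n → ℝ) (P Q : Cube n → ℝ) : Prop :=
  (∀ x y, 0 ≤ w x y) ∧ (∀ x, ∑ y, w x y = P x) ∧ (∀ y, ∑ x, w x y = Q y)

/-- The earth mover's distance under `hdist`. -/
noncomputable def emd (P Q : Cube n → ℝ) : ℝ :=
  sInf {c | ∃ w, IsCoupling w P Q ∧ c = ∑ x, ∑ y, w x y * hdist x y}

/-- The distribution `f(Y)` of `f` applied to a sample of `Y`. -/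
def push (f : Cube n → Cube n) (Y : Cube n → ℝ) : Cube n → ℝ :=
  fun z => ∑ x ∈ univ.filter (fun x => f x = z), Y x

/-- `D` is a property (a set of distributions) closed under mapping. -/
def ClosedUnderMapping (D : Set (Cube n → ℝ)) : Prop :=
  (∀ Y ∈ D, IsDistr Y) ∧ ∀ Y ∈ D, ∀ f : Cube n → Cube n, push f Y ∈ D

/-- `X` is `ε`-far from `D`. -/
def Far (ε : ℝ) (X : Cube n → ℝ) (D : Set (Cube n → ℝ)) : Prop := ∀ Y ∈ D, ε ≤ emd X Y

open scoped Classical in
/-- The probability that a uniformly random bijection of the cube has the property `E`. -/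
noncomputable def prob (E : Equiv.Perm (Cube n) → Prop) : ℝ :=
  ((univ.filter E).card : ℝ) / (Fintype.card (Equiv.Perm (Cube n)) : ℝ)

/-- The statement of Q1. -/
def Q1 : Prop :=
  ∃ (c : ℝ) (δ : ℕ → ℝ), 0 < c ∧ Tendsto δ atTop (𝓝 0) ∧
    ∀ (n : ℕ), 1 ≤ n → ∀ D : Set (Cube n → ℝ), ClosedUnderMapping D → ∀ ε : ℝ, 0 < ε →
      ∀ X : Cube n → ℝ, IsDistr X → Far ε X D →
        1 - δ n ≤ prob (fun π => Far (c * ε) (push π X) D)

/-! ### Basic facts -/

theorem hdist_nonneg (x y : Cube n) : 0 ≤ hdist x y := by unfold hdist; positivity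

theorem hdist_self (x : Cube n) : hdist x x = 0 := by simp [hdist]

theorem hdist_le_one (x y : Cube n) : hdist x y ≤ 1 := by
  unfold hdist
  rcases Nat.eq_zero_or_pos n with h | h
  · subst h
    simp
  · rw [div_le_one (by exact_mod_cast h)]
    have : (univ.filter fun i => x i ≠ y i).card ≤ n := by
      simpa using Finset.card_le_univ (univ.filter fun i => x i ≠ y i)
    exact_mod_cast this

theorem hdist_ge (x y : Cube n) (h : x ≠ y) : 1 / (n : ℝ) ≤ hdist x y := by
  unfold hdist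
  have : 1 ≤ (univ.filter fun i => x i ≠ y i).card := by
    rw [Nat.one_le_iff_ne_zero, Ne, Finset.card_eq_zero, Finset.filter_eq_empty_iff]
    intro h1
    exact h (funext fun i => not_not.1 (h1 (Finset.mem_univ i)))
  have h1 : (1 : ℝ) ≤ (univ.filter fun i => x i ≠ y i).card := by exact_mod_cast this
  exact div_le_div_of_nonneg_right h1 (Nat.cast_nonneg n)

theorem cost_nonneg {w : Cube n → Cube n → ℝ} {P Q : Cube n → ℝ} (h : IsCoupling w P Q) :
    0 ≤ ∑ x, ∑ y, w x y * hdist x y :=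
  Finset.sum_nonneg fun x _ => Finset.sum_nonneg fun y _ => mul_nonneg (h.1 x y) (hdist_nonneg x y)

theorem emd_le {w : Cube n → Cube n → ℝ} {P Q : Cube n → ℝ} (h : IsCoupling w P Q) :
    emd P Q ≤ ∑ x, ∑ y, w x y * hdist x y :=
  csInf_le ⟨0, by rintro c ⟨w', h', rfl⟩; exact cost_nonneg h'⟩ ⟨w, h, rfl⟩

theorem le_emd {P Q : Cube n → ℝ} (hP : IsDistr P) (hQ : IsDistr Q) {ε : ℝ}
    (h : ∀ w, IsCoupling w P Q → ε ≤ ∑ x, ∑ y, w x y * hdist x y) : ε ≤ emd P Q := by
  apply le_csInf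
  · refine ⟨_, fun x y => P x * Q y, ⟨fun x y => mul_nonneg (hP.1 x) (hQ.1 y), ?_, ?_⟩, rfl⟩
    · intro x
      rw [← Finset.mul_sum, hQ.2, mul_one]
    · intro y
      rw [← Finset.sum_mul, hP.2, one_mul]
  · rintro c ⟨w, hw, rfl⟩
    exact h w hw

/-- Kantorovich's lower bound. -/
theorem le_cost {w : Cube n → Cube n → ℝ} {P Q : Cube n → ℝ} (h : IsCoupling w P Q)
    (f : Cube n → ℝ) (hf : ∀ x y, f x - f y ≤ hdist x y) :
    ∑ x, P x * f x - ∑ y, Q y * f y ≤ ∑ x, ∑ y, w x y * hdist x y := by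
  have h1 : ∑ x, P x * f x = ∑ x, ∑ y, w x y * f x := by
    apply Finset.sum_congr rfl
    intro x _
    rw [← Finset.sum_mul, h.2.1 x]
  have h2 : ∑ y, Q y * f y = ∑ x, ∑ y, w x y * f y := by
    rw [Finset.sum_comm]
    apply Finset.sum_congr rfl
    intro y _
    rw [← Finset.sum_mul, h.2.2 y]
  rw [h1, h2, ← Finset.sum_sub_distrib]
  apply Finset.sum_le_sum
  intro x _
  rw [← Finset.sum_sub_distrib]
  apply Finset.sum_le_sum
  intro y _
  rw [← mul_sub]
  exact mul_le_mul_of_nonneg_left (hf x y) (h.1 x y)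

/-! ### The function `S` and its moments -/

/-- `±1`. -/
def sg (b : Bool) : ℝ := if b then 1 else -1

/-- The number of ones minus the number of zeros. -/
def S (x : Cube n) : ℝ := ∑ i, sg (x i)

theorem sum_cons (F : Cube (n + 1) → ℝ) :
    ∑ x, F x = ∑ x : Cube n, (F (Fin.cons true x) + F (Fin.cons false x)) := by
  rw [← (Fin.consEquiv (fun _ => Bool)).sum_comp, Fintype.sum_prod_type, Fintype.sum_bool,
    ← Finset.sum_add_distrib]
  rfl

theorem S_cons (b : Bool) (x : Cube n) : S (Fin.cons b x : Cube (n + 1)) = sg b + S x := by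
  unfold S
  rw [Fin.sum_univ_succ]
  simp

theorem card_cube : (Fintype.card (Cube n) : ℝ) = 2 ^ n := by
  simp [Cube]

theorem moment_two (n : ℕ) : ∑ x : Cube n, S x ^ 2 = n * 2 ^ n := by
  induction n with
  | zero => simp [S]
  | succ n ih =>
    rw [sum_cons]
    have h : ∀ x : Cube n, S (Fin.cons true x : Cube (n + 1)) ^ 2 +
        S (Fin.cons false x : Cube (n + 1)) ^ 2 = 2 * S x ^ 2 + 2 := by
      intro x
      rw [S_cons, S_cons]
      simp only [sg, if_true, Bool.false_eq_true, if_false]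
      ring
    rw [Finset.sum_congr rfl fun x _ => h x, Finset.sum_add_distrib, ← Finset.mul_sum, ih,
      Finset.sum_const, Finset.card_univ, nsmul_eq_mul, card_cube]
    push_cast
    ring

theorem moment_four (n : ℕ) : ∑ x : Cube n, S x ^ 4 = (3 * n ^ 2 - 2 * n) * 2 ^ n := by
  induction n with
  | zero => simp [S]
  | succ n ih =>
    rw [sum_cons]
    have h : ∀ x : Cube n, S (Fin.cons true x : Cube (n + 1)) ^ 4 +
        S (Fin.cons false x : Cube (n + 1)) ^ 4 = 2 * S x ^ 4 + 12 * S x ^ 2 + 2 := by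
      intro x
      rw [S_cons, S_cons]
      simp only [sg, if_true, Bool.false_eq_true, if_false]
      ring
    rw [Finset.sum_congr rfl fun x _ => h x, Finset.sum_add_distrib, Finset.sum_add_distrib,
      ← Finset.mul_sum, ← Finset.mul_sum, ih, moment_two,
      Finset.sum_const, Finset.card_univ, nsmul_eq_mul, card_cube]
    push_cast
    ring

theorem sum_abs_S {m : ℕ} (hm : 0 < m) (hn : n = m ^ 2) :
    9 / 16 * m * 2 ^ n ≤ ∑ x : Cube n, |S x| := by
  have hm' : (0 : ℝ) < m := by exact_mod_cast hm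
  have key : ∀ x : Cube n, 3 / (4 * m) * S x ^ 2 - 1 / (16 * m ^ 3) * S x ^ 4 ≤ |S x| := by
    intro x
    have h1 : S x ^ 2 = |S x| ^ 2 := (sq_abs _).symm
    have h2 : S x ^ 4 = |S x| ^ 4 := by
      rw [show (4 : ℕ) = 2 * 2 from rfl, pow_mul, h1, ← pow_mul]
    rw [h1, h2]
    set u : ℝ := |S x| / (2 * m) with hu
    have hu0 : 0 ≤ u := by positivity
    have hS : |S x| = 2 * m * u := by rw [hu]; field_simp
    rw [hS]
    have h3 : 3 / (4 * m) * (2 * m * u) ^ 2 - 1 / (16 * m ^ 3) * (2 * m * u) ^ 4 =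
        m * (3 * u ^ 2 - u ^ 4) := by
      field_simp
      ring
    rw [h3]
    have h4 : 3 * u ^ 2 - u ^ 4 ≤ 2 * u := by
      have : 0 ≤ u * ((u - 1) ^ 2 * (u + 2)) := by positivity
      nlinarith [this]
    nlinarith
  have h1 := Finset.sum_le_sum (fun (x : Cube n) (_ : x ∈ univ) => key x)
  rw [Finset.sum_sub_distrib, ← Finset.mul_sum, ← Finset.mul_sum, moment_two, moment_four] at h1
  refine le_trans ?_ h1
  have hn' : (n : ℝ) = m ^ 2 := by rw [hn]; push_cast; ring
  rw [hn']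
  have h2 : (0 : ℝ) < 2 ^ n := by positivity
  have h3 : 3 / (4 * (m : ℝ)) * (m ^ 2 * 2 ^ n) - 1 / (16 * m ^ 3) *
      ((3 * (m ^ 2) ^ 2 - 2 * m ^ 2) * 2 ^ n) = (9 / 16 * m + 1 / (8 * m)) * 2 ^ n := by
    field_simp
    ring
  rw [h3]
  have h4 : 0 < 1 / (8 * (m : ℝ)) := by positivity
  nlinarith

/-- The sign of `S`. -/
noncomputable def s (x : Cube n) : ℝ := if 0 < S x then 1 else -1

theorem s_mul_S (x : Cube n) : s x * S x = |S x| := by
  unfold s
  split_ifs with h
  · rw [abs_of_pos h, one_mul]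
  · rw [abs_of_nonpos (not_lt.1 h)]
    ring

theorem s_sq (x : Cube n) : s x * s x = 1 := by
  unfold s
  split_ifs <;> norm_num

theorem S_ne_zero (hn : Odd n) (x : Cube n) : S x ≠ 0 := by
  have h1 : S x = 2 * ((univ.filter fun i => x i = true).card : ℝ) - n := by
    unfold S
    have : ∀ i, sg (x i) = 2 * (if x i = true then (1 : ℝ) else 0) - 1 := by
      intro i
      unfold sg
      split_ifs <;> norm_num
    rw [Finset.sum_congr rfl fun i _ => this i, Finset.sum_sub_distrib, ← Finset.mul_sum,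
      Finset.sum_boole]
    simp
  intro h
  rw [h1] at h
  have h2 : (2 * (univ.filter fun i => x i = true).card : ℝ) = n := by linarith
  have h3 : 2 * (univ.filter fun i => x i = true).card = n := by exact_mod_cast h2
  obtain ⟨k, hk⟩ := hn
  omega

theorem sum_s (hn : Odd n) : ∑ x : Cube n, s x = 0 := by
  let e : Cube n ≃ Cube n :=
    { toFun := fun x i => !(x i)
      invFun := fun x i => !(x i)
      left_inv := fun x => by funext i; simp
      right_inv := fun x => by funext i; simp }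
  have h1 : ∀ x : Cube n, s (e x) = - s x := by
    intro x
    have h2 : S (e x) = - S x := by
      unfold S
      rw [← Finset.sum_neg_distrib]
      apply Finset.sum_congr rfl
      intro i _
      show sg (!(x i)) = - sg (x i)
      cases x i <;> simp [sg]
    have h3 := S_ne_zero hn x
    unfold s
    rw [h2]
    rcases lt_or_gt_of_ne h3 with h | h
    · rw [if_pos (by linarith), if_neg (by linarith)]
      norm_num
    · rw [if_neg (by linarith), if_pos h]
  have h2 := e.sum_comp (fun x : Cube n => s x)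
  rw [Finset.sum_congr rfl fun x _ => h1 x, Finset.sum_neg_distrib] at h2
  linarith

/-! ### Random bijections -/

/-- The pair correlations are nonpositive. -/
theorem pair_sum (hn : Odd n) (x y : Cube n) (hxy : y ≠ x) :
    ∑ π : Equiv.Perm (Cube n), s (π⁻¹ x) * s (π⁻¹ y) ≤ 0 := by
  classical
  have h1 : ∀ y', y' ≠ x → ∑ π : Equiv.Perm (Cube n), s (π⁻¹ x) * s (π⁻¹ y') =
      ∑ π : Equiv.Perm (Cube n), s (π⁻¹ x) * s (π⁻¹ y) := by
    intro y' hy'
    rw [← Equiv.sum_comp (Equiv.mulLeft (Equiv.swap y y'))]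
    apply Finset.sum_congr rfl
    intro π _
    have e1 : (Equiv.mulLeft (Equiv.swap y y') π)⁻¹ x = π⁻¹ x := by
      rw [Equiv.coe_mulLeft, mul_inv_rev, Equiv.Perm.mul_apply, Equiv.swap_inv,
        Equiv.swap_apply_of_ne_of_ne hxy.symm hy'.symm]
    have e2 : (Equiv.mulLeft (Equiv.swap y y') π)⁻¹ y' = π⁻¹ y := by
      rw [Equiv.coe_mulLeft, mul_inv_rev, Equiv.Perm.mul_apply, Equiv.swap_inv,
        Equiv.swap_apply_right]
    rw [e1, e2]
  have h2 : ∑ y' ∈ univ.erase x, ∑ π : Equiv.Perm (Cube n), s (π⁻¹ x) * s (π⁻¹ y') =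
      - (Fintype.card (Equiv.Perm (Cube n)) : ℝ) := by
    rw [Finset.sum_comm]
    have h3 : ∀ π : Equiv.Perm (Cube n), ∑ y' ∈ univ.erase x, s (π⁻¹ x) * s (π⁻¹ y') = -1 := by
      intro π
      rw [← Finset.mul_sum]
      have h4 : ∑ y' ∈ univ.erase x, s (π⁻¹ y') = - s (π⁻¹ x) := by
        have h5 := Finset.add_sum_erase univ (fun y' => s (π⁻¹ y')) (Finset.mem_univ x)
        have h6 : ∑ y', s (π⁻¹ y') = 0 := by
          rw [Equiv.sum_comp (π⁻¹) (fun y => s y)]
          exact sum_s hn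
        rw [h6] at h5
        linarith
      rw [h4, mul_neg, s_sq]
    rw [Finset.sum_congr rfl fun π _ => h3 π]
    simp
  rw [Finset.sum_congr rfl fun y' hy' => h1 y' (Finset.ne_of_mem_erase hy'), Finset.sum_const,
    nsmul_eq_mul] at h2
  by_contra hpos
  push Not at hpos
  have h3 : (0 : ℝ) ≤ ((univ.erase x).card : ℝ) * ∑ π : Equiv.Perm (Cube n),
      s (π⁻¹ x) * s (π⁻¹ y) := by positivity
  rw [h2] at h3
  have h4 : (0 : ℝ) < Fintype.card (Equiv.Perm (Cube n)) := by
    exact_mod_cast Fintype.card_pos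
  linarith

section Blocks

variable {L : Type} [Fintype L] [DecidableEq L] (lab : Cube n → L)

/-- The block sums. -/
noncomputable def T (π : Equiv.Perm (Cube n)) (ℓ : L) : ℝ :=
  ∑ x ∈ univ.filter (fun x => lab x = ℓ), s (π⁻¹ x)

theorem second_moment (hn : Odd n) :
    ∑ π : Equiv.Perm (Cube n), ∑ ℓ, T lab π ℓ ^ 2 ≤
      (Fintype.card (Equiv.Perm (Cube n)) : ℝ) * 2 ^ n := by
  classical
  rw [Finset.sum_comm]
  have h1 : ∀ ℓ : L, ∑ π : Equiv.Perm (Cube n), T lab π ℓ ^ 2 ≤
      (Fintype.card (Equiv.Perm (Cube n)) : ℝ) * (univ.filter (fun x => lab x = ℓ)).card := by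
    intro ℓ
    have h2 : ∀ π : Equiv.Perm (Cube n), T lab π ℓ ^ 2 =
        ∑ x ∈ univ.filter (fun x => lab x = ℓ), ∑ y ∈ univ.filter (fun x => lab x = ℓ),
          s (π⁻¹ x) * s (π⁻¹ y) := by
      intro π
      unfold T
      rw [sq, Finset.sum_mul_sum]
    rw [Finset.sum_congr rfl fun π _ => h2 π, Finset.sum_comm]
    have h3 : ∀ x ∈ univ.filter (fun x => lab x = ℓ),
        ∑ π : Equiv.Perm (Cube n), ∑ y ∈ univ.filter (fun x => lab x = ℓ),
          s (π⁻¹ x) * s (π⁻¹ y) ≤ (Fintype.card (Equiv.Perm (Cube n)) : ℝ) := by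
      intro x hx
      rw [Finset.sum_comm, ← Finset.add_sum_erase _ _ hx]
      have h4 : ∑ π : Equiv.Perm (Cube n), s (π⁻¹ x) * s (π⁻¹ x) =
          (Fintype.card (Equiv.Perm (Cube n)) : ℝ) := by
        rw [Finset.sum_congr rfl fun π _ => s_sq (π⁻¹ x)]
        simp
      have h5 : ∑ y ∈ (univ.filter (fun x => lab x = ℓ)).erase x,
          ∑ π : Equiv.Perm (Cube n), s (π⁻¹ x) * s (π⁻¹ y) ≤ 0 :=
        Finset.sum_nonpos fun y hy => pair_sum hn x y (Finset.ne_of_mem_erase hy)
      linarith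
    refine (Finset.sum_le_sum h3).trans ?_
    rw [Finset.sum_const, nsmul_eq_mul, mul_comm]
  refine (Finset.sum_le_sum fun ℓ _ => h1 ℓ).trans ?_
  rw [← Finset.mul_sum]
  apply mul_le_mul_of_nonneg_left _ (Nat.cast_nonneg _)
  have h2 : ∑ ℓ : L, ((univ.filter (fun x => lab x = ℓ)).card : ℝ) = 2 ^ n := by
    rw [← card_cube]
    have h3 := Finset.card_eq_sum_card_fiberwise (f := lab) (s := (univ : Finset (Cube n)))
      (t := univ) (fun _ _ => Finset.mem_coe.2 (Finset.mem_univ _))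
    rw [← Finset.card_univ, h3]
    push_cast
    rfl
  rw [h2]

/-- Markov's inequality for the sum of the squares of the block sums. -/
theorem markov (hn : Odd n) (δ : ℝ) (hδ : 0 < δ) :
    1 - δ ≤ prob (fun π : Equiv.Perm (Cube n) => ∑ ℓ, T lab π ℓ ^ 2 ≤ 2 ^ n / δ) := by
  classical
  set F : ℝ := (Fintype.card (Equiv.Perm (Cube n)) : ℝ) with hF
  have hF0 : 0 < F := by
    rw [hF]
    exact_mod_cast Fintype.card_pos
  have h1 := second_moment lab hn
  unfold prob
  rw [← hF, le_div_iff₀ hF0]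
  have h2 : ((univ.filter fun π : Equiv.Perm (Cube n) => ¬ ∑ ℓ, T lab π ℓ ^ 2 ≤ 2 ^ n / δ).card : ℝ)
      * (2 ^ n / δ) ≤ F * 2 ^ n := by
    refine le_trans ?_ h1
    rw [← nsmul_eq_mul, ← Finset.sum_const]
    calc ∑ π ∈ univ.filter (fun π : Equiv.Perm (Cube n) => ¬ ∑ ℓ, T lab π ℓ ^ 2 ≤ 2 ^ n / δ),
          (2 ^ n / δ : ℝ)
        ≤ ∑ π ∈ univ.filter (fun π : Equiv.Perm (Cube n) => ¬ ∑ ℓ, T lab π ℓ ^ 2 ≤ 2 ^ n / δ),
          ∑ ℓ, T lab π ℓ ^ 2 := by
          apply Finset.sum_le_sum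
          intro π hπ
          exact (not_le.1 (Finset.mem_filter.1 hπ).2).le
      _ ≤ ∑ π : Equiv.Perm (Cube n), ∑ ℓ, T lab π ℓ ^ 2 := by
          apply Finset.sum_le_sum_of_subset_of_nonneg (Finset.filter_subset _ _)
          intro π _ _
          exact Finset.sum_nonneg fun _ _ => sq_nonneg _
  have h3 : ((univ.filter fun π : Equiv.Perm (Cube n) => ¬ ∑ ℓ, T lab π ℓ ^ 2 ≤ 2 ^ n / δ).card : ℝ)
      ≤ δ * F := by
    have h4 : (0 : ℝ) < 2 ^ n / δ := by positivity
    have h5 : F * 2 ^ n = (δ * F) * (2 ^ n / δ) := by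
      field_simp
    rw [h5] at h2
    exact le_of_mul_le_mul_right h2 h4
  have h4 := Finset.card_filter_add_card_filter_not (s := (univ : Finset (Equiv.Perm (Cube n))))
    (fun π => ∑ ℓ, T lab π ℓ ^ 2 ≤ 2 ^ n / δ)
  have h5 : ((univ.filter fun π : Equiv.Perm (Cube n) => ∑ ℓ, T lab π ℓ ^ 2 ≤ 2 ^ n / δ).card : ℝ)
      + ((univ.filter fun π : Equiv.Perm (Cube n) => ¬ ∑ ℓ, T lab π ℓ ^ 2 ≤ 2 ^ n / δ).card : ℝ)
      = F := by
    rw [hF, ← Finset.card_univ]
    exact_mod_cast h4
  linarith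

/-! ### The coupling -/

/-- The transport of `u (1 + η σ)` to the constant `u`, for a balanced `±1`-valued `σ`. -/
theorem transport (σ : Cube n → ℝ) (hσ : ∀ x, σ x = 1 ∨ σ x = -1) (hsum : ∑ x, σ x = 0)
    (κ : ℝ) (hκ : 0 ≤ κ) (hlab : ∀ x y, lab x = lab y → hdist x y ≤ κ)
    (η : ℝ) (hη : 0 ≤ η) (hη1 : η ≤ 1) :
    emd (fun x => (1 + η * σ x) / 2 ^ n) (fun _ : Cube n => 1 / 2 ^ n) ≤
      η * (κ + (∑ ℓ, |∑ x ∈ univ.filter (fun x => lab x = ℓ), σ x|) / 2 / 2 ^ n) := by
  classical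
  let p : Cube n → ℝ := fun x => if σ x = 1 then 1 else 0
  let q : Cube n → ℝ := fun x => if σ x = 1 then 0 else 1
  have hp0 : ∀ x, 0 ≤ p x := fun x => by dsimp only [p]; split_ifs <;> norm_num
  have hq0 : ∀ x, 0 ≤ q x := fun x => by dsimp only [q]; split_ifs <;> norm_num
  have hp1 : ∀ x, p x ≤ 1 := fun x => by dsimp only [p]; split_ifs <;> norm_num
  have hq1 : ∀ x, q x ≤ 1 := fun x => by dsimp only [q]; split_ifs <;> norm_num
  have hpq : ∀ x, σ x = p x - q x := by
    intro x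
    dsimp only [p, q]
    rcases hσ x with h | h
    · rw [if_pos h, if_pos h, h]; norm_num
    · rw [if_neg (by rw [h]; norm_num), if_neg (by rw [h]; norm_num), h]; norm_num
  let a : L → ℝ := fun ℓ => ∑ x ∈ univ.filter (fun x => lab x = ℓ), p x
  let b : L → ℝ := fun ℓ => ∑ x ∈ univ.filter (fun x => lab x = ℓ), q x
  have ha0 : ∀ ℓ, 0 ≤ a ℓ := fun ℓ => Finset.sum_nonneg fun x _ => hp0 x
  have hb0 : ∀ ℓ, 0 ≤ b ℓ := fun ℓ => Finset.sum_nonneg fun x _ => hq0 x
  let M : L → ℝ := fun ℓ => max (a ℓ) (b ℓ)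
  have hM0 : ∀ ℓ, 0 ≤ M ℓ := fun ℓ => (ha0 ℓ).trans (le_max_left _ _)
  have haM : ∀ ℓ, a ℓ / M ℓ ≤ 1 := fun ℓ => div_le_one_of_le₀ (le_max_left _ _) (hM0 ℓ)
  have hbM : ∀ ℓ, b ℓ / M ℓ ≤ 1 := fun ℓ => div_le_one_of_le₀ (le_max_right _ _) (hM0 ℓ)
  have hab : ∀ ℓ, a ℓ - b ℓ = ∑ x ∈ univ.filter (fun x => lab x = ℓ), σ x := by
    intro ℓ
    dsimp only [a, b]
    rw [← Finset.sum_sub_distrib]
    exact Finset.sum_congr rfl fun x _ => (hpq x).symm
  let r : Cube n → ℝ := fun x => p x * (1 - b (lab x) / M (lab x))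
  let t : Cube n → ℝ := fun y => q y * (1 - a (lab y) / M (lab y))
  have hr0 : ∀ x, 0 ≤ r x := fun x => mul_nonneg (hp0 x) (by linarith [hbM (lab x)])
  have ht0 : ∀ x, 0 ≤ t x := fun x => mul_nonneg (hq0 x) (by linarith [haM (lab x)])
  -- sums over blocks
  have hblock : ∀ f : Cube n → ℝ, ∑ x, f x = ∑ ℓ, ∑ x ∈ univ.filter (fun x => lab x = ℓ), f x := by
    intro f
    rw [Finset.sum_fiberwise]
  have hrsum : ∑ x, r x = ∑ ℓ, max (a ℓ - b ℓ) 0 := by
    rw [hblock r]
    apply Finset.sum_congr rfl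
    intro ℓ _
    have h1 : ∑ x ∈ univ.filter (fun x => lab x = ℓ), r x = a ℓ * (1 - b ℓ / M ℓ) := by
      dsimp only [a]
      rw [Finset.sum_mul]
      apply Finset.sum_congr rfl
      intro x hx
      rw [← (Finset.mem_filter.1 hx).2]
    rw [h1]
    rcases le_total (a ℓ) (b ℓ) with h | h
    · have hMb : M ℓ = b ℓ := max_eq_right h
      rw [max_eq_right (by linarith), hMb]
      rcases eq_or_lt_of_le (hb0 ℓ) with h0 | h0
      · have : a ℓ = 0 := le_antisymm (h.trans h0.symm.le) (ha0 ℓ)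
        rw [this, zero_mul]
      · rw [div_self h0.ne', sub_self, mul_zero]
    · have hMa : M ℓ = a ℓ := max_eq_left h
      rw [max_eq_left (by linarith), hMa]
      rcases eq_or_lt_of_le (ha0 ℓ) with h0 | h0
      · have : b ℓ = 0 := le_antisymm (h.trans h0.symm.le) (hb0 ℓ)
        rw [this, ← h0]
        simp
      · field_simp
  have htsum : ∑ x, t x = ∑ ℓ, max (b ℓ - a ℓ) 0 := by
    rw [hblock t]
    apply Finset.sum_congr rfl
    intro ℓ _
    have h1 : ∑ x ∈ univ.filter (fun x => lab x = ℓ), t x = b ℓ * (1 - a ℓ / M ℓ) := by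
      dsimp only [b]
      rw [Finset.sum_mul]
      apply Finset.sum_congr rfl
      intro x hx
      rw [← (Finset.mem_filter.1 hx).2]
    rw [h1]
    rcases le_total (b ℓ) (a ℓ) with h | h
    · have hMb : M ℓ = a ℓ := max_eq_left h
      rw [max_eq_right (by linarith), hMb]
      rcases eq_or_lt_of_le (ha0 ℓ) with h0 | h0
      · have : b ℓ = 0 := le_antisymm (h.trans h0.symm.le) (hb0 ℓ)
        rw [this, zero_mul]
      · rw [div_self h0.ne', sub_self, mul_zero]
    · have hMa : M ℓ = b ℓ := max_eq_right h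
      rw [max_eq_left (by linarith), hMa]
      rcases eq_or_lt_of_le (hb0 ℓ) with h0 | h0
      · have : a ℓ = 0 := le_antisymm (h.trans h0.symm.le) (ha0 ℓ)
        rw [this, ← h0]
        simp
      · field_simp
  have habs : ∀ ℓ, |a ℓ - b ℓ| = max (a ℓ - b ℓ) 0 + max (b ℓ - a ℓ) 0 := by
    intro ℓ
    rcases le_total (a ℓ) (b ℓ) with h | h
    · rw [abs_of_nonpos (by linarith), max_eq_right (by linarith), max_eq_left (by linarith)]
      ring
    · rw [abs_of_nonneg (by linarith), max_eq_left (by linarith), max_eq_right (by linarith)]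
      ring
  have hdiff : ∀ ℓ, a ℓ - b ℓ = max (a ℓ - b ℓ) 0 - max (b ℓ - a ℓ) 0 := by
    intro ℓ
    rcases le_total (a ℓ) (b ℓ) with h | h
    · rw [max_eq_right (by linarith), max_eq_left (by linarith)]
      ring
    · rw [max_eq_left (by linarith), max_eq_right (by linarith)]
      ring
  set ρ : ℝ := ∑ x, r x with hρ
  have hρt : ∑ x, t x = ρ := by
    have h1 : ∑ ℓ, (a ℓ - b ℓ) = 0 := by
      rw [Finset.sum_congr rfl fun ℓ _ => hab ℓ, ← hblock σ, hsum]
    rw [Finset.sum_congr rfl fun ℓ _ => hdiff ℓ, Finset.sum_sub_distrib, ← hrsum, ← htsum] at h1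
    linarith
  have hρabs : ρ = (∑ ℓ, |∑ x ∈ univ.filter (fun x => lab x = ℓ), σ x|) / 2 := by
    have h1 : ∑ ℓ, |∑ x ∈ univ.filter (fun x => lab x = ℓ), σ x| = 2 * ρ := by
      rw [← Finset.sum_congr rfl fun ℓ _ => congrArg abs (hab ℓ),
        Finset.sum_congr rfl fun ℓ _ => habs ℓ, Finset.sum_add_distrib, ← hrsum, ← htsum, hρt]
      ring
    rw [h1]
    ring
  have hρ0 : 0 ≤ ρ := Finset.sum_nonneg fun x _ => hr0 x
  have hrρ : ∀ x, r x * (ρ / ρ) = r x := by
    intro x
    rcases eq_or_lt_of_le hρ0 with h | h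
    · have h1 := (Finset.sum_eq_zero_iff_of_nonneg fun x _ => hr0 x).1 h.symm x (Finset.mem_univ x)
      rw [h1, zero_mul]
    · rw [div_self h.ne', mul_one]
  have htρ : ∀ x, t x * (ρ / ρ) = t x := by
    intro x
    rcases eq_or_lt_of_le hρ0 with h | h
    · rw [← hρt] at h
      have h1 := (Finset.sum_eq_zero_iff_of_nonneg fun x _ => ht0 x).1 h.symm x (Finset.mem_univ x)
      rw [h1, zero_mul]
    · rw [div_self h.ne', mul_one]
  let w₁ : Cube n → Cube n → ℝ := fun x y => if lab x = lab y then p x * q y / M (lab x) else 0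
  have hw₁0 : ∀ x y, 0 ≤ w₁ x y := by
    intro x y
    dsimp only [w₁]
    split_ifs
    · exact div_nonneg (mul_nonneg (hp0 x) (hq0 y)) (hM0 _)
    · exact le_rfl
  have hw₁row : ∀ x, ∑ y, w₁ x y = p x * (b (lab x) / M (lab x)) := by
    intro x
    dsimp only [w₁]
    rw [← Finset.sum_filter]
    have h1 : univ.filter (fun y => lab x = lab y) = univ.filter (fun y => lab y = lab x) := by
      ext y; simp [eq_comm]
    rw [h1, ← Finset.sum_div, ← Finset.mul_sum, mul_div_assoc]
  have hw₁col : ∀ y, ∑ x, w₁ x y = q y * (a (lab y) / M (lab y)) := by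
    intro y
    dsimp only [w₁]
    rw [← Finset.sum_filter]
    have h1 : ∀ x ∈ univ.filter (fun x => lab x = lab y), p x * q y / M (lab x) =
        p x * q y / M (lab y) := by
      intro x hx
      rw [(Finset.mem_filter.1 hx).2]
    rw [Finset.sum_congr rfl h1, ← Finset.sum_div, ← Finset.sum_mul, mul_comm, mul_div_assoc]
  let w : Cube n → Cube n → ℝ := fun x y =>
    ((if x = y then 1 - η * q x else 0) + η * w₁ x y + η * (r x * t y / ρ)) / 2 ^ n
  have hw : IsCoupling w (fun x => (1 + η * σ x) / 2 ^ n) (fun _ => 1 / 2 ^ n) := by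
    refine ⟨?_, ?_, ?_⟩
    · intro x y
      apply div_nonneg _ (by positivity)
      apply add_nonneg (add_nonneg _ (mul_nonneg hη (hw₁0 x y)))
        (mul_nonneg hη (div_nonneg (mul_nonneg (hr0 x) (ht0 y)) hρ0))
      split_ifs
      · have := mul_le_mul hη1 (hq1 x) (hq0 x) zero_le_one
        linarith
      · exact le_rfl
    · intro x
      show ∑ y, ((if x = y then 1 - η * q x else 0) + η * w₁ x y + η * (r x * t y / ρ)) / 2 ^ n = _
      rw [← Finset.sum_div]
      congr 1
      rw [Finset.sum_add_distrib, Finset.sum_add_distrib, Finset.sum_ite_eq univ x,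
        if_pos (Finset.mem_univ x), ← Finset.mul_sum, ← Finset.mul_sum, hw₁row]
      have h1 : ∑ y, r x * t y / ρ = r x := by
        rw [← Finset.sum_div, ← Finset.mul_sum, hρt, mul_div_assoc, hrρ]
      rw [h1, hpq x]
      dsimp only [r]
      ring
    · intro y
      show ∑ x, ((if x = y then 1 - η * q x else 0) + η * w₁ x y + η * (r x * t y / ρ)) / 2 ^ n = _
      rw [← Finset.sum_div]
      congr 1
      rw [Finset.sum_add_distrib, Finset.sum_add_distrib, Finset.sum_ite_eq' univ y,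
        if_pos (Finset.mem_univ y), ← Finset.mul_sum, ← Finset.mul_sum, hw₁col]
      have h1 : ∑ x, r x * t y / ρ = t y := by
        rw [← Finset.sum_div, ← Finset.sum_mul, ← hρ, mul_comm, mul_div_assoc, htρ]
      rw [h1]
      dsimp only [t]
      ring
  refine (emd_le hw).trans ?_
  rw [← hρabs]
  have hterm : ∀ x y, w x y * hdist x y ≤ η * (κ * w₁ x y + r x * t y / ρ) / 2 ^ n := by
    intro x y
    have h1 : (if x = y then 1 - η * q x else 0) * hdist x y = 0 := by
      split_ifs with h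
      · rw [h, hdist_self, mul_zero]
      · rw [zero_mul]
    have h2 : w₁ x y * hdist x y ≤ κ * w₁ x y := by
      by_cases h : lab x = lab y
      · rw [mul_comm]
        exact mul_le_mul_of_nonneg_right (hlab x y h) (hw₁0 x y)
      · have : w₁ x y = 0 := if_neg h
        rw [this, zero_mul, mul_zero]
    have h3 : r x * t y / ρ * hdist x y ≤ r x * t y / ρ :=
      mul_le_of_le_one_right (div_nonneg (mul_nonneg (hr0 x) (ht0 y)) hρ0) (hdist_le_one x y)
    have h4 : w x y * hdist x y = ((if x = y then 1 - η * q x else 0) * hdist x y +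
        η * (w₁ x y * hdist x y + r x * t y / ρ * hdist x y)) / 2 ^ n := by
      dsimp only [w]
      ring
    rw [h4, h1, zero_add]
    apply div_le_div_of_nonneg_right _ (by positivity)
    exact mul_le_mul_of_nonneg_left (add_le_add h2 h3) hη
  refine (Finset.sum_le_sum fun x _ => Finset.sum_le_sum fun y _ => hterm x y).trans ?_
  have h1 : ∑ x, ∑ y, η * (κ * w₁ x y + r x * t y / ρ) / 2 ^ n =
      η * (κ * ∑ x, ∑ y, w₁ x y + ∑ x, ∑ y, r x * t y / ρ) / 2 ^ n := by
    rw [Finset.mul_sum, ← Finset.sum_add_distrib, Finset.mul_sum, Finset.sum_div]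
    apply Finset.sum_congr rfl
    intro x _
    rw [Finset.mul_sum, ← Finset.sum_add_distrib, Finset.mul_sum, Finset.sum_div]
  have h2 : ∑ x, ∑ y, w₁ x y ≤ 2 ^ n := by
    rw [← card_cube]
    calc ∑ x, ∑ y, w₁ x y = ∑ x, p x * (b (lab x) / M (lab x)) :=
          Finset.sum_congr rfl fun x _ => hw₁row x
      _ ≤ ∑ x : Cube n, (1 : ℝ) := by
          apply Finset.sum_le_sum
          intro x _
          exact mul_le_one₀ (hp1 x) (div_nonneg (hb0 _) (hM0 _)) (hbM _)
      _ = _ := by simp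
  have h3 : ∑ x, ∑ y, r x * t y / ρ = ρ := by
    have h4 : ∀ x, ∑ y, r x * t y / ρ = r x := by
      intro x
      rw [← Finset.sum_div, ← Finset.mul_sum, hρt, mul_div_assoc, hrρ]
    rw [Finset.sum_congr rfl fun x _ => h4 x]
  rw [h1, h3, mul_div_assoc]
  apply mul_le_mul_of_nonneg_left _ hη
  rw [add_div]
  apply add_le_add _ le_rfl
  rw [div_le_iff₀ (by positivity)]
  exact mul_le_mul_of_nonneg_left h2 hκ

end Blocks

/-! ### The property and the distribution -/

/-- The distributions all of whose probabilities are multiples of `2^{-n}`. -/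
def Grained (n : ℕ) : Set (Cube n → ℝ) :=
  {Y | IsDistr Y ∧ ∀ z, ∃ j : ℕ, Y z = (j : ℝ) / 2 ^ n}

theorem push_isDistr {Y : Cube n → ℝ} (hY : IsDistr Y) (f : Cube n → Cube n) :
    IsDistr (push f Y) := by
  refine ⟨fun z => Finset.sum_nonneg fun x _ => hY.1 x, ?_⟩
  unfold push
  rw [Finset.sum_fiberwise, hY.2]

theorem grained_closed (n : ℕ) : ClosedUnderMapping (Grained n) := by
  refine ⟨fun Y hY => hY.1, fun Y hY f => ⟨push_isDistr hY.1 f, fun z => ?_⟩⟩
  choose j hj using hY.2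
  refine ⟨∑ x ∈ univ.filter (fun x => f x = z), j x, ?_⟩
  unfold push
  rw [Nat.cast_sum, Finset.sum_div]
  exact Finset.sum_congr rfl fun x _ => hj x

/-- The uniform distribution. -/
noncomputable def unif (n : ℕ) : Cube n → ℝ := fun _ => 1 / 2 ^ n

theorem unif_mem (n : ℕ) : unif n ∈ Grained n := by
  refine ⟨⟨fun x => by unfold unif; positivity, ?_⟩, fun z => ⟨1, by simp [unif]⟩⟩
  unfold unif
  rw [Finset.sum_const, Finset.card_univ, nsmul_eq_mul, card_cube]
  field_simp

theorem exists_zero {Y : Cube n → ℝ} (hY : Y ∈ Grained n) (hne : Y ≠ unif n) :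
    ∃ z, Y z = 0 := by
  by_contra hcon
  push Not at hcon
  apply hne
  have h1 : ∀ z, 1 / 2 ^ n ≤ Y z := by
    intro z
    obtain ⟨j, hj⟩ := hY.2 z
    have hj0 : j ≠ 0 := by
      rintro rfl
      apply hcon z
      rw [hj]
      simp
    rw [hj]
    apply div_le_div_of_nonneg_right _ (by positivity)
    exact_mod_cast Nat.one_le_iff_ne_zero.2 hj0
  have h2 : ∑ z, (Y z - 1 / 2 ^ n) = 0 := by
    rw [Finset.sum_sub_distrib, hY.1.2]
    have := (unif_mem n).1.2
    unfold unif at this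
    rw [this, sub_self]
  have h3 := (Finset.sum_eq_zero_iff_of_nonneg fun z _ => by linarith [h1 z]).1 h2
  funext z
  have := h3 z (Finset.mem_univ z)
  show Y z = 1 / 2 ^ n
  linarith

/-- The distribution `X`. -/
noncomputable def X (n : ℕ) (η : ℝ) : Cube n → ℝ := fun x => (1 + η * s x) / 2 ^ n

theorem s_cases (x : Cube n) : s x = 1 ∨ s x = -1 := by
  unfold s
  split_ifs
  · exact Or.inl rfl
  · exact Or.inr rfl

theorem X_isDistr (hn : Odd n) {η : ℝ} (h0 : 0 ≤ η) (h1 : η ≤ 1) : IsDistr (X n η) := by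
  constructor
  · intro x
    unfold X
    apply div_nonneg _ (by positivity)
    rcases s_cases x with h | h <;> rw [h] <;> linarith
  · unfold X
    rw [← Finset.sum_div, Finset.sum_add_distrib, ← Finset.mul_sum, sum_s hn, mul_zero, add_zero,
      Finset.sum_const, Finset.card_univ, nsmul_eq_mul, card_cube]
    field_simp

theorem S_lip (x y : Cube n) : S x / (2 * n) - S y / (2 * n) ≤ hdist x y := by
  unfold hdist S
  have h1 : ∀ i, sg (x i) - sg (y i) ≤ 2 * (if x i ≠ y i then (1 : ℝ) else 0) := by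
    intro i
    cases x i <;> cases y i <;> simp [sg] <;> norm_num
  have h2 := Finset.sum_le_sum fun i (_ : i ∈ (univ : Finset (Fin n))) => h1 i
  rw [Finset.sum_sub_distrib, ← Finset.mul_sum, Finset.sum_boole] at h2
  rcases Nat.eq_zero_or_pos n with h | h
  · subst h
    simp
  · have hn : (0 : ℝ) < n := by exact_mod_cast h
    rw [← sub_div, div_le_div_iff₀ (by positivity) hn]
    nlinarith

/-- `X` is far from the grained distributions. -/
theorem X_far {m : ℕ} (hm : 0 < m) (hn : n = m ^ 2) (hodd : Odd n) {η : ℝ}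
    (hη : η = 1 / (2 * n * 2 ^ n)) : Far (9 / 32 * η / m) (X n η) (Grained n) := by
  have hm' : (0 : ℝ) < m := by exact_mod_cast hm
  have hm1 : (1 : ℝ) ≤ m := by exact_mod_cast hm
  have hnm : (n : ℝ) = m ^ 2 := by rw [hn]; push_cast; ring
  have hn' : (0 : ℝ) < n := by rw [hnm]; positivity
  have hn1 : (1 : ℝ) ≤ n := by rw [hnm]; nlinarith
  have h2n : (1 : ℝ) ≤ 2 ^ n := one_le_pow₀ (by norm_num)
  have hη0 : 0 < η := by rw [hη]; positivity
  have hη1 : η ≤ 1 / 2 := by
    rw [hη]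
    apply one_div_le_one_div_of_le (by norm_num)
    nlinarith
  intro Y hY
  apply le_emd (X_isDistr hodd hη0.le (by linarith)) hY.1
  intro w hw
  by_cases hYU : Y = unif n
  · subst hYU
    refine le_trans ?_ (le_cost hw (fun x => S x / (2 * n)) S_lip)
    have h1 : ∑ x, X n η x * (S x / (2 * n)) - ∑ y, unif n y * (S y / (2 * n)) =
        η / (2 * n * 2 ^ n) * ∑ x : Cube n, |S x| := by
      rw [← Finset.sum_sub_distrib, Finset.mul_sum]
      apply Finset.sum_congr rfl
      intro x _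
      rw [← s_mul_S x]
      unfold X unif
      field_simp
      ring
    rw [h1]
    have h2 := sum_abs_S hm hn
    have h3 : η / (2 * n * 2 ^ n) * (9 / 16 * m * 2 ^ n) = 9 / 32 * η / m := by
      rw [hnm]
      field_simp
      ring
    rw [← h3]
    exact mul_le_mul_of_nonneg_left h2 (by positivity)
  · obtain ⟨z, hz⟩ := exists_zero hY hYU
    have h1 : w z z = 0 := by
      apply le_antisymm _ (hw.1 z z)
      rw [← hz, ← hw.2.2 z]
      exact Finset.single_le_sum (f := fun x => w x z) (fun x _ => hw.1 x z) (Finset.mem_univ z)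
    have h2 : X n η z * (1 / n) ≤ ∑ y, w z y * hdist z y := by
      rw [← hw.2.1 z, Finset.sum_mul]
      apply Finset.sum_le_sum
      intro y _
      by_cases hy : z = y
      · subst hy
        rw [h1, zero_mul, zero_mul]
      · exact mul_le_mul_of_nonneg_left (hdist_ge z y hy) (hw.1 z y)
    have h3 : ∑ y, w z y * hdist z y ≤ ∑ x, ∑ y, w x y * hdist x y :=
      Finset.single_le_sum (f := fun x => ∑ y, w x y * hdist x y)
        (fun x _ => Finset.sum_nonneg fun y _ => mul_nonneg (hw.1 x y) (hdist_nonneg x y))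
        (Finset.mem_univ z)
    have h4 : 1 / 2 / 2 ^ n ≤ X n η z := by
      unfold X
      apply div_le_div_of_nonneg_right _ (by positivity)
      rcases s_cases z with h | h <;> rw [h] <;> linarith
    have h5 : 1 / 2 / 2 ^ n * (1 / n) ≤ X n η z * (1 / (n : ℝ)) :=
      mul_le_mul_of_nonneg_right h4 (by positivity)
    have h6 : 9 / 32 * η / m ≤ 1 / 2 / 2 ^ n * (1 / (n : ℝ)) := by
      have h7 : 1 / 2 / 2 ^ n * (1 / (n : ℝ)) = η := by
        rw [hη]
        field_simp
      rw [h7, div_le_iff₀ hm']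
      nlinarith
    linarith

theorem push_X (η : ℝ) (π : Equiv.Perm (Cube n)) :
    push π (X n η) = fun x => (1 + η * s (π⁻¹ x)) / 2 ^ n := by
  funext z
  unfold push
  have h1 : univ.filter (fun x => π x = z) = {π⁻¹ z} := by
    ext x
    simp only [Finset.mem_filter, Finset.mem_univ, true_and, Finset.mem_singleton]
    rw [Equiv.Perm.eq_inv_iff_eq]
  rw [h1, Finset.sum_singleton]
  rfl

/-- Given `c, δ > 0` and the parameters `m = K k`, the random relabeling destroys the distance. -/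
theorem main_bound {c δ : ℝ} (hc : 0 < c) (hδ : 0 < δ) {m K k : ℕ} (hk : 0 < k) (hm : m = K * k)
    (hn : n = m ^ 2) (hodd : Odd n) (hK : 64 / (9 * c) < K)
    (hkk : 1 / (δ * 2 ^ k) < (9 * c / (32 * (K * k))) ^ 2) {η : ℝ}
    (hη : η = 1 / (2 * n * 2 ^ n)) :
    1 - δ ≤ prob (fun π : Equiv.Perm (Cube n) =>
      emd (push π (X n η)) (unif n) < c * (9 / 32 * η / m)) := by
  classical
  have hK0 : (0 : ℝ) < K := lt_trans (by positivity) hK
  have hK0' : 0 < K := by exact_mod_cast hK0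
  have hm0 : 0 < m := by rw [hm]; positivity
  have hk' : (0 : ℝ) < k := by exact_mod_cast hk
  have hm' : (0 : ℝ) < m := by exact_mod_cast hm0
  have hmK : (m : ℝ) = K * k := by rw [hm]; push_cast; ring
  have hnm : (n : ℝ) = m ^ 2 := by rw [hn]; push_cast; ring
  have hn' : (0 : ℝ) < n := by rw [hnm]; positivity
  have hn1 : 1 ≤ n := by
    rw [hn]
    exact Nat.one_le_pow _ _ hm0
  have h2n : (1 : ℝ) ≤ 2 ^ n := one_le_pow₀ (by norm_num)
  have hη0 : 0 < η := by rw [hη]; positivity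
  have hη1 : η ≤ 1 := by
    rw [hη]
    have h1 : (1 : ℝ) ≤ n := by exact_mod_cast hn1
    rw [div_le_one (by positivity)]
    nlinarith
  have hkn : k ≤ n := by
    rw [hn, hm]
    nlinarith [Nat.mul_le_mul hK0' (le_refl k), Nat.le_self_pow two_ne_zero (K * k)]
  -- the blocks: the coordinates from `k` on are fixed
  let lab : Cube n → ({i : Fin n // k ≤ i.1} → Bool) := fun x i => x i.1
  have hcardL : (Fintype.card ({i : Fin n // k ≤ i.1} → Bool) : ℝ) * 2 ^ k = 2 ^ n := by
    have h1 : Fintype.card {i : Fin n // k ≤ i.1} = n - k := by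
      rw [Fintype.card_subtype]
      have h2 : (univ.filter fun i : Fin n => k ≤ i.1) =
          (univ.filter fun i : Fin n => i.1 < k)ᶜ := by
        ext i
        simp
      rw [h2, Finset.card_compl, Fintype.card_fin, Fin.card_filter_val_lt, min_eq_right hkn]
    rw [Fintype.card_fun, Fintype.card_bool, h1]
    push_cast
    rw [← pow_add]
    congr 1
    omega
  have hlab : ∀ x y : Cube n, lab x = lab y → hdist x y ≤ k / n := by
    intro x y hxy
    unfold hdist
    apply div_le_div_of_nonneg_right _ hn'.le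
    have h1 : (univ.filter fun i => x i ≠ y i) ⊆ univ.filter fun i : Fin n => i.1 < k := by
      intro i hi
      rw [Finset.mem_filter] at hi ⊢
      refine ⟨Finset.mem_univ i, ?_⟩
      by_contra h2
      exact hi.2 (congrFun hxy ⟨i, not_lt.1 h2⟩)
    have h2 := Finset.card_le_card h1
    rw [Fin.card_filter_val_lt, min_eq_right hkn] at h2
    exact_mod_cast h2
  refine (markov lab hodd δ hδ).trans ?_
  unfold prob
  apply div_le_div_of_nonneg_right _ (Nat.cast_nonneg _)
  norm_cast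
  apply Finset.card_le_card
  intro π hπ
  rw [Finset.mem_filter] at hπ ⊢
  refine ⟨Finset.mem_univ π, ?_⟩
  have hQ : ∑ ℓ, T lab π ℓ ^ 2 ≤ 2 ^ n / δ := by
    have h0 := hπ.2
    push_cast at h0
    exact h0
  rw [push_X]
  have h1 := transport lab (fun x => s (π⁻¹ x)) (fun x => s_cases _) (by
    rw [Equiv.sum_comp (π⁻¹) (fun y => s y)]
    exact sum_s hodd) (k / n) (by positivity) hlab η hη0.le hη1
  refine lt_of_le_of_lt h1 ?_
  have h2 : c * (9 / 32 * η / m) = η * (c * (9 / 32) / m) := by ring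
  rw [h2]
  apply mul_lt_mul_of_pos_left _ hη0
  set t : ℝ := ∑ ℓ, |∑ x ∈ univ.filter (fun x => lab x = ℓ), s (π⁻¹ x)| with ht
  have ht0 : 0 ≤ t := Finset.sum_nonneg fun _ _ => abs_nonneg _
  have h3 : (k : ℝ) / n < c * (9 / 64) / m := by
    rw [hnm, hmK]
    rw [div_lt_div_iff₀ (by positivity) (by positivity)]
    have h4 : 64 < 9 * c * K := by
      rw [div_lt_iff₀ (by positivity)] at hK
      linarith
    have h5 : 0 < (k : ℝ) * (K * k) := by positivity
    have h6 : c * (9 / 64) * (K * k) ^ 2 = (9 * c * K / 64) * (k * (K * k)) := by ring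
    rw [h6]
    have h7 : 1 < 9 * c * (K : ℝ) / 64 := by
      rw [lt_div_iff₀ (by norm_num)]
      linarith
    nlinarith
  have h4 : t / 2 / 2 ^ n < c * (9 / 64) / m := by
    have h5 : (t / 2 ^ n) ^ 2 < (9 * c / (32 * (K * k))) ^ 2 := by
      refine lt_of_le_of_lt ?_ hkk
      have h6 : t ^ 2 ≤ (Fintype.card ({i : Fin n // k ≤ i.1} → Bool) : ℝ) *
          ∑ ℓ, T lab π ℓ ^ 2 := by
        have h7 := sq_sum_le_card_mul_sum_sq (s := (univ : Finset ({i : Fin n // k ≤ i.1} → Bool)))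
          (f := fun ℓ => |∑ x ∈ univ.filter (fun x => lab x = ℓ), s (π⁻¹ x)|)
        rw [Finset.card_univ] at h7
        refine h7.trans (le_of_eq ?_)
        congr 1
        apply Finset.sum_congr rfl
        intro ℓ _
        exact sq_abs _
      rw [div_pow, div_le_div_iff₀ (by positivity) (by positivity), one_mul]
      calc t ^ 2 * (δ * 2 ^ k) ≤ ((Fintype.card ({i : Fin n // k ≤ i.1} → Bool) : ℝ) *
            (2 ^ n / δ)) * (δ * 2 ^ k) := by
            apply mul_le_mul_of_nonneg_right _ (by positivity)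
            exact h6.trans (mul_le_mul_of_nonneg_left hQ (Nat.cast_nonneg _))
        _ = ((Fintype.card ({i : Fin n // k ≤ i.1} → Bool) : ℝ) * 2 ^ k) * 2 ^ n := by
            field_simp
        _ = (2 ^ n) ^ 2 := by rw [hcardL]; ring
    have h6 : t / 2 ^ n < 9 * c / (32 * (K * k)) :=
      lt_of_pow_lt_pow_left₀ 2 (by positivity) h5
    have h7 : t / 2 / 2 ^ n = (t / 2 ^ n) / 2 := by ring
    have h8 : c * (9 / 64) / m = (9 * c / (32 * (K * k))) / 2 := by
      rw [hmK]
      field_simp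
      ring
    rw [h7, h8]
    linarith
  have h5 : c * (9 / 32) / m = c * (9 / 64) / m + c * (9 / 64) / m := by ring
  rw [h5]
  exact add_lt_add h3 h4

/-- For all `c, δ > 0` and arbitrarily large `n` there are a property `D` of distributions on
`{0,1}^n` closed under mapping, an `ε > 0`, and a distribution `X` that is `ε`-far from `D`, such
that with probability at least `1 - δ` over the random bijection `π`, the distribution `π(X)` is
at distance less than `c ε` from a member of `D`.  Consequently the answer to Q1 is negative. -/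
theorem result :
    (∀ c δ : ℝ, 0 < c → 0 < δ → ∀ n₀ : ℕ, ∃ n ≥ n₀, 1 ≤ n ∧ ∃ (D : Set (Cube n → ℝ)) (ε : ℝ)
      (X : Cube n → ℝ), ClosedUnderMapping D ∧ 0 < ε ∧ IsDistr X ∧ Far ε X D ∧
        1 - δ ≤ prob (fun π => ∃ Y ∈ D, emd (push π X) Y < c * ε)) ∧
    ¬ Q1 := by
  classical
  have main : ∀ c δ : ℝ, 0 < c → 0 < δ → ∀ n₀ : ℕ, ∃ n ≥ n₀, 1 ≤ n ∧
      ∃ (D : Set (Cube n → ℝ)) (ε : ℝ) (X : Cube n → ℝ), ClosedUnderMapping D ∧ 0 < ε ∧
        IsDistr X ∧ Far ε X D ∧ 1 - δ ≤ prob (fun π => ∃ Y ∈ D, emd (push π X) Y < c * ε) := by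
    intro c δ hc hδ n₀
    obtain ⟨K₀, hK₀⟩ := exists_nat_gt (64 / (9 * c))
    let K := 2 * K₀ + 1
    have hK : 64 / (9 * c) < (K : ℕ) := by
      refine lt_of_lt_of_le hK₀ ?_
      exact_mod_cast (by omega : K₀ ≤ 2 * K₀ + 1)
    have hlim := tendsto_pow_const_div_const_pow_of_one_lt 2 (r := (2 : ℝ)) (by norm_num)
    have hpos : 0 < δ * (9 * c / (32 * K)) ^ 2 := by positivity
    obtain ⟨k₀, hk₀⟩ := Filter.eventually_atTop.1 (hlim.eventually (gt_mem_nhds hpos))
    let k := 2 * (k₀ + n₀) + 1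
    have hk := hk₀ k (by omega)
    have hk0 : 0 < k := by omega
    have hkk : 1 / (δ * 2 ^ k) < (9 * c / (32 * ((K : ℕ) * (k : ℕ)))) ^ 2 := by
      have hk' : (0 : ℝ) < k := by exact_mod_cast hk0
      have hK' : (0 : ℝ) < K := lt_trans (by positivity) hK
      rw [div_lt_iff₀ (by positivity)]
      rw [div_lt_iff₀ (by positivity)] at hk
      have h1 : (9 * c / (32 * ((K : ℝ) * k))) ^ 2 * (δ * 2 ^ k) =
          (δ * (9 * c / (32 * K)) ^ 2 * 2 ^ k) / k ^ 2 := by
        field_simp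
      rw [h1, lt_div_iff₀ (by positivity), one_mul]
      exact hk
    have hodd : Odd ((K * k) ^ 2) := by
      apply Odd.pow
      exact Odd.mul ⟨K₀, rfl⟩ ⟨k₀ + n₀, rfl⟩
    have hKk : k ≤ K * k := Nat.le_mul_of_pos_left k (by omega)
    have hm0 : 0 < K * k := by omega
    have hsq : K * k ≤ (K * k) ^ 2 := Nat.le_self_pow two_ne_zero _
    set n := (K * k) ^ 2 with hn
    have hn1 : 1 ≤ n := by omega
    set η : ℝ := 1 / (2 * n * 2 ^ n) with hη
    have hn' : (0 : ℝ) < n := by exact_mod_cast hn1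
    have hη0 : 0 < η := by positivity
    have hη1 : η ≤ 1 := by
      have h1 : (1 : ℝ) ≤ n := by exact_mod_cast hn1
      have h2n : (1 : ℝ) ≤ 2 ^ n := one_le_pow₀ (by norm_num)
      rw [hη, div_le_one (by positivity)]
      nlinarith
    have hmpos : (0 : ℝ) < (K * k : ℕ) := by exact_mod_cast hm0
    refine ⟨n, by omega, hn1, Grained n, 9 / 32 * η / (K * k : ℕ), X n η, grained_closed n,
      by positivity, X_isDistr hodd hη0.le hη1, X_far hm0 hn hodd hη, ?_⟩
    refine (main_bound hc hδ hk0 rfl hn hodd hK hkk hη).trans ?_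
    unfold prob
    apply div_le_div_of_nonneg_right _ (Nat.cast_nonneg _)
    norm_cast
    apply Finset.card_le_card
    intro π hπ
    rw [Finset.mem_filter] at hπ ⊢
    exact ⟨Finset.mem_univ π, unif n, unif_mem n, hπ.2⟩
  refine ⟨main, ?_⟩
  rintro ⟨c, δ, hc, hδ, h⟩
  obtain ⟨n₀, hn₀⟩ := Filter.eventually_atTop.1
    (hδ.eventually (gt_mem_nhds (show (0 : ℝ) < 1 / 4 by norm_num)))
  obtain ⟨n, hn, hn1, D, ε, X, hD, hε, hX, hfar, hprob⟩ := main c (1 / 4) hc (by norm_num) n₀
  have h1 := h n hn1 D hD ε hε X hX hfar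
  have h2 := hn₀ n hn
  have h3 : prob (fun π : Equiv.Perm (Cube n) => Far (c * ε) (push π X) D) +
      prob (fun π : Equiv.Perm (Cube n) => ∃ Y ∈ D, emd (push π X) Y < c * ε) ≤ 1 := by
    unfold prob
    have hF0 : (0 : ℝ) < Fintype.card (Equiv.Perm (Cube n)) := by
      exact_mod_cast Fintype.card_pos
    rw [← add_div, div_le_one hF0]
    norm_cast
    rw [← Finset.card_union_of_disjoint]
    · exact Finset.card_le_univ _
    · rw [Finset.disjoint_filter]
      rintro π - hfar' ⟨Y, hY, hlt⟩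
      exact absurd (hfar' Y hY) (not_le.2 hlt)
  linarith

end Pool.Agent.Results.MP_3e89d2_lc.RandomRelabeling
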